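import Mathlib

set_option autoImplicit false

namespace Pool.Agent.Results.MP_3387b7_co.NoStraightLine

/-- A hypergraph with vertex set `V` and a family of edges indexed by `I`; every edge is a
nonempty finite set of vertices. -/
structure Hypergraph (V I : Type) where
  edge : I → Finset V
  nonempty : ∀ i, (edge i).Nonempty

/-- Linear: two distinct edges have at most one vertex in common. -/
def Hypergraph.Linear {V I : Type} (H : Hypergraph V I) : Prop :=
  ∀ i j, i ≠ j → ∀ u v, u ∈ H.edge i → u ∈ H.edge j → v ∈ H.edge i → v ∈ H.edge j → u = v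

/-- The incidence graph: the bipartite graph on `V ⊕ I` in which `v` and `i` are adjacent exactly
when `v ∈ H.edge i`. -/
def Hypergraph.incidence {V I : Type} (H : Hypergraph V I) : SimpleGraph (V ⊕ I) where
  Adj x y := ∃ v i, v ∈ H.edge i ∧
    ((x = Sum.inl v ∧ y = Sum.inr i) ∨ (x = Sum.inr i ∧ y = Sum.inl v))
  symm := ⟨by
    rintro x y ⟨v, i, h, h1 | h1⟩
    · exact ⟨v, i, h, Or.inr ⟨h1.2, h1.1⟩⟩
    · exact ⟨v, i, h, Or.inl ⟨h1.2, h1.1⟩⟩⟩
  loopless := ⟨by
    rintro x ⟨v, i, h, ⟨h1, h2⟩ | ⟨h1, h2⟩⟩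
    · rw [h1] at h2; cases h2
    · rw [h1] at h2; cases h2⟩

/-- `A` is an arc of the plane from `p` to `q`. -/
def IsArc (A : Set (ℝ × ℝ)) (p q : ℝ × ℝ) : Prop :=
  ∃ g : ℝ → ℝ × ℝ, ContinuousOn g (Set.Icc 0 1) ∧ Set.InjOn g (Set.Icc 0 1) ∧
    g 0 = p ∧ g 1 = q ∧ A = g '' Set.Icc 0 1

/-- A graph is planar: its vertices can be placed at distinct points of the plane and its edges
drawn as arcs between their ends, so that an arc contains no vertex other than its two ends and
the arcs of two distinct edges meet only in vertices. -/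
def IsPlanar {X : Type} (G : SimpleGraph X) : Prop :=
  ∃ (pos : X → ℝ × ℝ) (arc : Sym2 X → Set (ℝ × ℝ)),
    Function.Injective pos ∧
    (∀ x y, G.Adj x y → IsArc (arc s(x, y)) (pos x) (pos y)) ∧
    (∀ x y z, G.Adj x y → pos z ∈ arc s(x, y) → z = x ∨ z = y) ∧
    (∀ e ∈ G.edgeSet, ∀ f ∈ G.edgeSet, e ≠ f → ∀ t, t ∈ arc e → t ∈ arc f → ∃ z, t = pos z)

/-- `p`, `s` form a straight-line representation of `H`: the points `p v` are distinct, every
`s i` is a closed segment of positive length, two distinct segments have at most one common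
point, and such a point is `p v` for some `v`, and `p v ∈ s i` exactly when `v ∈ H.edge i`. -/
def StraightLineRep {V I : Type} (H : Hypergraph V I) (p : V → ℝ × ℝ)
    (s : I → Set (ℝ × ℝ)) : Prop :=
  Function.Injective p ∧
  (∀ i, ∃ a b : ℝ × ℝ, a ≠ b ∧ s i = segment ℝ a b) ∧
  (∀ i j, i ≠ j → (s i ∩ s j).Subsingleton ∧ ∀ t ∈ s i ∩ s j, ∃ v, t = p v) ∧
  (∀ v i, p v ∈ s i ↔ v ∈ H.edge i)

/-! ### Elementary plane geometry -/

/-- orientation determinant -/
def cr (p q r : ℝ × ℝ) : ℝ := (q.1 - p.1) * (r.2 - p.2) - (q.2 - p.2) * (r.1 - p.1)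

theorem cr_lin (p q y z : ℝ × ℝ) (a b : ℝ) (h : a + b = 1) :
    cr p q (a • y + b • z) = a * cr p q y + b * cr p q z := by
  have ha : a = 1 - b := by linarith
  subst ha
  simp only [cr, Prod.smul_fst, Prod.smul_snd, Prod.fst_add, Prod.snd_add, smul_eq_mul]
  ring

theorem cr_self_left (p q : ℝ × ℝ) : cr p q p = 0 := by simp [cr]
theorem cr_self_right (p q : ℝ × ℝ) : cr p q q = 0 := by simp only [cr]; ring
theorem cr_rot (p q r : ℝ × ℝ) : cr q r p = cr p q r := by simp only [cr]; ring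

theorem cr_of_mem_segment {p q z : ℝ × ℝ} (hz : z ∈ segment ℝ p q) : cr p q z = 0 := by
  obtain ⟨a, b, _, _, hab, rfl⟩ := hz
  rw [cr_lin _ _ _ _ _ _ hab, cr_self_left, cr_self_right]; ring

/-- two segments from the same point in non-parallel directions meet only there -/
theorem seg_adj {x y w z : ℝ × ℝ} (h : cr x y w ≠ 0) (hz : z ∈ segment ℝ x y)
    (hz' : z ∈ segment ℝ x w) : z = x := by
  have h1 := cr_of_mem_segment hz
  obtain ⟨a, b, _, _, hab, rfl⟩ := hz'
  rw [cr_lin _ _ _ _ _ _ hab, cr_self_left] at h1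
  have hb : b = 0 := by
    rcases mul_eq_zero.1 (by linarith : b * cr x y w = 0) with h2 | h2
    · exact h2
    · exact absurd h2 h
  subst hb
  have : a = 1 := by linarith
  subst this
  simp

theorem seg_disj_pos {p q r t z : ℝ × ℝ} (h1 : 0 < cr p q r) (h2 : 0 < cr p q t)
    (hz : z ∈ segment ℝ p q) (hz' : z ∈ segment ℝ r t) : False := by
  have h0 := cr_of_mem_segment hz
  obtain ⟨a, b, ha, hb, hab, rfl⟩ := hz'
  rw [cr_lin _ _ _ _ _ _ hab] at h0
  rcases eq_or_lt_of_le ha with h | h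
  · subst h
    have : b = 1 := by linarith
    subst this; linarith
  · nlinarith [mul_pos h h1, mul_nonneg hb h2.le]

theorem seg_disj_neg {p q r t z : ℝ × ℝ} (h1 : cr p q r < 0) (h2 : cr p q t < 0)
    (hz : z ∈ segment ℝ p q) (hz' : z ∈ segment ℝ r t) : False := by
  have h0 := cr_of_mem_segment hz
  obtain ⟨a, b, ha, hb, hab, rfl⟩ := hz'
  rw [cr_lin _ _ _ _ _ _ hab] at h0
  rcases eq_or_lt_of_le ha with h | h
  · subst h
    have : b = 1 := by linarith
    subst this; linarith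
  · nlinarith [mul_pos h (neg_pos.2 h1), mul_nonneg hb (neg_pos.2 h2).le]

theorem segment_isArc {p q : ℝ × ℝ} (h : p ≠ q) : IsArc (segment ℝ p q) p q := by
  refine ⟨AffineMap.lineMap p q, AffineMap.lineMap_continuous.continuousOn,
    (AffineMap.lineMap_injective ℝ h).injOn, by simp, by simp, ?_⟩
  rw [segment_eq_image_lineMap]

/-- explicit convex combinations -/
theorem combo_mem {a b z : ℝ × ℝ} {α β T : ℝ} (hT : 0 < T) (hα : 0 ≤ α) (hβ : 0 ≤ β)
    (hs : α + β = T) (hz : T • z = α • a + β • b) : z ∈ segment ℝ a b := by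
  refine ⟨α / T, β / T, by positivity, by positivity, ?_, ?_⟩
  · rw [← add_div, hs, div_self hT.ne']
  · have : z = T⁻¹ • (α • a + β • b) := by rw [← hz, smul_smul, inv_mul_cancel₀ hT.ne', one_smul]
    rw [this, smul_add, smul_smul, smul_smul, div_eq_inv_mul, div_eq_inv_mul]

/-- barycentric identity -/
theorem bary (a b w z : ℝ × ℝ) :
    cr a b w • z = cr b w z • a + (cr w a z • b + cr a b z • w) := by
  ext
  · simp only [cr, Prod.smul_fst, Prod.fst_add, smul_eq_mul]; ring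
  · simp only [cr, Prod.smul_snd, Prod.snd_add, smul_eq_mul]; ring

theorem bary_sum (a b w z : ℝ × ℝ) :
    cr b w z + cr w a z + cr a b z = cr a b w := by
  simp only [cr]; ring

/-- The point at which the first of three positive affine functions vanishes. -/
theorem exit_aux {g1 g2 h1 h2 k1 k2 : ℝ} (hg1 : 0 < g1) (hg2 : g2 ≤ 0)
    (_ : 0 ≤ h1) (_ : 0 ≤ k1) (hh : g2 * h1 ≤ h2 * g1) (hk : g2 * k1 ≤ k2 * g1) :
    ∃ a b : ℝ, 0 ≤ a ∧ 0 ≤ b ∧ a + b = 1 ∧ a * g1 + b * g2 = 0 ∧ 0 ≤ a * h1 + b * h2 ∧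
      0 ≤ a * k1 + b * k2 := by
  have hd : 0 < g1 - g2 := by linarith
  refine ⟨-g2 / (g1 - g2), g1 / (g1 - g2), ?_, ?_, ?_, ?_, ?_, ?_⟩
  · exact div_nonneg (by linarith) hd.le
  · exact div_nonneg hg1.le hd.le
  · rw [← add_div, div_eq_one_iff_eq hd.ne']; ring
  · rw [div_mul_eq_mul_div, div_mul_eq_mul_div, ← add_div]
    have : -g2 * g1 + g1 * g2 = 0 := by ring
    rw [this, zero_div]
  · rw [div_mul_eq_mul_div, div_mul_eq_mul_div, ← add_div]
    exact div_nonneg (by nlinarith) hd.le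
  · rw [div_mul_eq_mul_div, div_mul_eq_mul_div, ← add_div]
    exact div_nonneg (by nlinarith) hd.le

/-- If a segment starts in the open triangle `a b w` (of positive orientation) and avoids the
three sides, it ends in the open triangle. -/
theorem stay_inside {a b w y z : ℝ × ℝ} (hS : 0 < cr a b w)
    (y1 : 0 < cr b w y) (y2 : 0 < cr w a y) (y3 : 0 < cr a b y)
    (n1 : ∀ t, t ∈ segment ℝ y z → t ∉ segment ℝ b w)
    (n2 : ∀ t, t ∈ segment ℝ y z → t ∉ segment ℝ a w)
    (n3 : ∀ t, t ∈ segment ℝ y z → t ∉ segment ℝ a b) :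
    0 < cr b w z ∧ 0 < cr w a z ∧ 0 < cr a b z := by
  -- the three exits
  have e1 : cr b w z ≤ 0 → cr b w z * cr w a y ≤ cr w a z * cr b w y →
      cr b w z * cr a b y ≤ cr a b z * cr b w y → False := by
    intro h0 h1 h2
    obtain ⟨s, t, hs, ht, hst, q0, q1, q2⟩ := exit_aux y1 h0 y2.le y3.le h1 h2
    have hu : (s • y + t • z) ∈ segment ℝ y z := ⟨s, t, hs, ht, hst, rfl⟩
    refine n1 _ hu ?_
    have r0 := cr_lin b w y z s t hst
    have r1 := cr_lin w a y z s t hst
    have r2 := cr_lin a b y z s t hst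
    rw [q0] at r0
    have hb := bary a b w (s • y + t • z)
    have hsum := bary_sum a b w (s • y + t • z)
    rw [r0, zero_smul, zero_add] at hb
    rw [r0, zero_add] at hsum
    refine combo_mem hS (by rw [r1]; exact q1) (by rw [r2]; exact q2) hsum hb
  have e2 : cr w a z ≤ 0 → cr w a z * cr b w y ≤ cr b w z * cr w a y →
      cr w a z * cr a b y ≤ cr a b z * cr w a y → False := by
    intro h0 h1 h2
    obtain ⟨s, t, hs, ht, hst, q0, q1, q2⟩ := exit_aux y2 h0 y1.le y3.le h1 h2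
    have hu : (s • y + t • z) ∈ segment ℝ y z := ⟨s, t, hs, ht, hst, rfl⟩
    refine n2 _ hu ?_
    have r0 := cr_lin b w y z s t hst
    have r1 := cr_lin w a y z s t hst
    have r2 := cr_lin a b y z s t hst
    rw [q0] at r1
    have hb := bary a b w (s • y + t • z)
    have hsum := bary_sum a b w (s • y + t • z)
    rw [r1, zero_smul, zero_add] at hb
    rw [r1, add_zero] at hsum
    refine combo_mem hS (by rw [r0]; exact q1) (by rw [r2]; exact q2) hsum hb
  have e3 : cr a b z ≤ 0 → cr a b z * cr b w y ≤ cr b w z * cr a b y →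
      cr a b z * cr w a y ≤ cr w a z * cr a b y → False := by
    intro h0 h1 h2
    obtain ⟨s, t, hs, ht, hst, q0, q1, q2⟩ := exit_aux y3 h0 y1.le y2.le h1 h2
    have hu : (s • y + t • z) ∈ segment ℝ y z := ⟨s, t, hs, ht, hst, rfl⟩
    refine n3 _ hu ?_
    have r0 := cr_lin b w y z s t hst
    have r1 := cr_lin w a y z s t hst
    have r2 := cr_lin a b y z s t hst
    rw [q0] at r2
    have hb := bary a b w (s • y + t • z)
    have hsum := bary_sum a b w (s • y + t • z)
    rw [r2, zero_smul, add_zero] at hb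
    rw [r2, add_zero] at hsum
    refine combo_mem hS (by rw [r0]; exact q1) (by rw [r1]; exact q2) hsum hb
  -- choose the smallest ratio
  set x1 := cr b w y with hx1
  set x2 := cr w a y with hx2
  set x3 := cr a b y with hx3
  set u1 := cr b w z with hu1
  set u2 := cr w a z with hu2
  set u3 := cr a b z with hu3
  have key : ∀ {p1 p2 p3 v1 v2 v3 : ℝ}, 0 < p1 → 0 < p2 → 0 < p3 →
      v1 * p2 ≤ v2 * p1 → v2 * p3 ≤ v3 * p2 → v1 * p3 ≤ v3 * p1 := by
    intro p1 p2 p3 v1 v2 v3 h1 h2 h3 h4 h5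
    have h6 : v1 * p2 * p3 ≤ v2 * p1 * p3 := mul_le_mul_of_nonneg_right h4 h3.le
    have h7 : v2 * p3 * p1 ≤ v3 * p2 * p1 := mul_le_mul_of_nonneg_right h5 h1.le
    have h8 : p2 * (v1 * p3) ≤ p2 * (v3 * p1) := by linarith [h6, h7]
    exact le_of_mul_le_mul_left h8 h2
  by_contra hneg
  have hex : u1 ≤ 0 ∨ u2 ≤ 0 ∨ u3 ≤ 0 := by
    by_contra hc
    push Not at hc
    exact hneg ⟨hc.1, hc.2.1, hc.2.2⟩
  -- if index `i` has the smallest ratio then `u_i ≤ 0`
  have npos : ∀ {p v q u : ℝ}, 0 < p → 0 < q → u * q ≤ v * p → v ≤ 0 → u ≤ 0 := by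
    intro p v q u hp hq h hv
    by_contra hc
    push Not at hc
    have := mul_pos hc hq
    nlinarith
  rcases le_total (u1 * x2) (u2 * x1) with h12 | h12
  · rcases le_total (u1 * x3) (u3 * x1) with h13 | h13
    · refine e1 ?_ h12 h13
      rcases hex with h | h | h
      · exact h
      · exact npos y1 y2 h12 h
      · exact npos y1 y3 h13 h
    · have h32 : u3 * x2 ≤ u2 * x3 := key y3 y1 y2 h13 h12
      refine e3 ?_ h13 h32
      rcases hex with h | h | h
      · exact npos y3 y1 h13 h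
      · exact npos y3 y2 h32 h
      · exact h
  · rcases le_total (u2 * x3) (u3 * x2) with h23 | h23
    · refine e2 ?_ h12 h23
      rcases hex with h | h | h
      · exact npos y2 y1 h12 h
      · exact h
      · exact npos y2 y3 h23 h
    · have h31 : u3 * x1 ≤ u1 * x3 := key y3 y2 y1 h23 h12
      refine e3 ?_ h31 h23
      rcases hex with h | h | h
      · exact npos y3 y1 h31 h
      · exact npos y3 y2 h23 h
      · exact h

theorem small_eps {a b c d : ℝ} (ha : 0 < a) (hc : 0 < c) :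
    ∃ e : ℝ, 0 < e ∧ e < 1 ∧ 0 < (1 - e) * a + e * b ∧ 0 < (1 - e) * c + e * d := by
  have q1 : 0 < a + |b| := by positivity
  have q2 : 0 < c + |d| := by positivity
  have main : ∀ {x y e : ℝ}, 0 < x → 0 ≤ e → e ≤ x / (2 * (x + |y|)) →
      0 < (1 - e) * x + e * y := by
    intro x y e hx he h
    have q : 0 < x + |y| := by positivity
    rw [le_div_iff₀ (by positivity)] at h
    have h3 : -|y| ≤ y := neg_abs_le y
    have h4 : e * (-|y|) ≤ e * y := mul_le_mul_of_nonneg_left h3 he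
    nlinarith
  refine ⟨min (a / (2 * (a + |b|))) (c / (2 * (c + |d|))), ?_, ?_, ?_, ?_⟩
  · exact lt_min (by positivity) (by positivity)
  · refine lt_of_le_of_lt (min_le_left _ _) ?_
    rw [div_lt_one (by positivity)]
    have := abs_nonneg b
    nlinarith
  · exact main ha (le_min (by positivity) (by positivity)) (min_le_left _ _)
  · exact main hc (le_min (by positivity) (by positivity)) (min_le_right _ _)

theorem crossing_core {A B W C D W' X : ℝ × ℝ} (hS : 0 < cr A B W)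
    (hC : 0 < cr A B C) (hD : cr A B D < 0)
    (hX1 : X ∈ openSegment ℝ A B) (hX2 : X ∈ openSegment ℝ C D)
    (h12 : ∀ t, t ∈ segment ℝ A B → t ∈ segment ℝ C D → t = X)
    (hAW : ∀ t, t ∈ segment ℝ A W → t ∉ segment ℝ C D)
    (hBW : ∀ t, t ∈ segment ℝ B W → t ∉ segment ℝ C D)
    (hCA : ∀ t, t ∈ segment ℝ C W' → t ∉ segment ℝ A B)
    (hDA : ∀ t, t ∈ segment ℝ D W' → t ∉ segment ℝ A B)
    (c1 : ∀ t, t ∈ segment ℝ C W' → t ∉ segment ℝ A W)
    (c2 : ∀ t, t ∈ segment ℝ C W' → t ∉ segment ℝ B W)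
    (d1 : ∀ t, t ∈ segment ℝ D W' → t ∉ segment ℝ A W)
    (d2 : ∀ t, t ∈ segment ℝ D W' → t ∉ segment ℝ B W) : False := by
  have hX3 : cr A B X = 0 := cr_of_mem_segment (openSegment_subset_segment _ _ _ hX1)
  obtain ⟨s, t, hs, ht, hst, hX⟩ := hX1
  have hXC : X ∈ segment ℝ C D := openSegment_subset_segment _ _ _ hX2
  have hCC : C ∈ segment ℝ C D := left_mem_segment _ _ _
  have a1 : cr B W X = s * cr A B W := by
    rw [← hX, cr_lin _ _ _ _ _ _ hst, cr_self_left, cr_rot]; ring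
  have a2 : cr W A X = t * cr A B W := by
    rw [← hX, cr_lin _ _ _ _ _ _ hst, cr_self_right, ← cr_rot W A B]
    ring
  have a1' : 0 < cr B W X := by rw [a1]; positivity
  have a2' : 0 < cr W A X := by rw [a2]; positivity
  obtain ⟨e, he0, he1, h1, h2⟩ := small_eps (b := cr B W C) (d := cr W A C) a1' a2'
  have hee : (1 - e) + e = 1 := by ring
  set y : ℝ × ℝ := (1 - e) • X + e • C with hy
  have y1 : 0 < cr B W y := by rw [hy, cr_lin _ _ _ _ _ _ hee]; exact h1
  have y2 : 0 < cr W A y := by rw [hy, cr_lin _ _ _ _ _ _ hee]; exact h2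
  have y3 : 0 < cr A B y := by
    rw [hy, cr_lin _ _ _ _ _ _ hee, hX3]; nlinarith [mul_pos he0 hC]
  have hyCD : y ∈ segment ℝ C D :=
    (convex_segment C D) hXC hCC (by linarith) he0.le hee
  have hsub : ∀ u, u ∈ segment ℝ y C → u ∈ segment ℝ C D := fun u hu =>
    (convex_segment C D).segment_subset hyCD hCC hu
  obtain ⟨z1, z2, z3⟩ := stay_inside (z := C) hS y1 y2 y3
    (fun u hu hu' => hBW u hu' (hsub u hu))
    (fun u hu hu' => hAW u hu' (hsub u hu))
    (fun u hu hu' => by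
      have hux := h12 u hu' (hsub u hu)
      obtain ⟨a, b, ha, hb, hab, rfl⟩ := hu
      have h5 := cr_lin A B y C a b hab
      rw [hux, hX3] at h5
      rcases eq_or_lt_of_le ha with h | h
      · subst h
        have : b = 1 := by linarith
        subst this; linarith
      · nlinarith [mul_pos h y3, mul_nonneg hb hC.le])
  obtain ⟨v1, v2, v3⟩ := stay_inside (z := W') hS z1 z2 z3
    (fun u hu => c2 u hu) (fun u hu => c1 u hu) (fun u hu => hCA u hu)
  obtain ⟨u1, u2, u3⟩ := stay_inside (z := D) hS v1 v2 v3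
    (fun u hu => d2 u (by rwa [segment_symm] at hu)) (fun u hu => d1 u (by rwa [segment_symm] at hu))
    (fun u hu => hDA u (by rwa [segment_symm] at hu))
  linarith

/-- points on the line through `P`, `Q` -/
theorem on_line {P Q Z : ℝ × ℝ} (hPQ : P ≠ Q) (h : cr P Q Z = 0) :
    ∃ r : ℝ, Z = (1 - r) • P + r • Q := by
  have hne : 0 < (Q.1 - P.1) ^ 2 + (Q.2 - P.2) ^ 2 := by
    by_contra hc
    push Not at hc
    have h1 : Q.1 - P.1 = 0 := by nlinarith [sq_nonneg (Q.1 - P.1), sq_nonneg (Q.2 - P.2)]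
    have h2 : Q.2 - P.2 = 0 := by nlinarith [sq_nonneg (Q.1 - P.1), sq_nonneg (Q.2 - P.2)]
    exact hPQ (Prod.ext (by linarith) (by linarith))
  refine ⟨((Z.1 - P.1) * (Q.1 - P.1) + (Z.2 - P.2) * (Q.2 - P.2)) /
    ((Q.1 - P.1) ^ 2 + (Q.2 - P.2) ^ 2), ?_⟩
  simp only [cr] at h
  ext
  · simp only [Prod.fst_add, Prod.smul_fst, smul_eq_mul]
    field_simp
    linear_combination (-(Q.2 - P.2)) * h
  · simp only [Prod.snd_add, Prod.smul_snd, smul_eq_mul]
    field_simp
    linear_combination (Q.1 - P.1) * h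

/-- the point with parameter `r` on the line `P Q` -/
def lp (P Q : ℝ × ℝ) (r : ℝ) : ℝ × ℝ := (1 - r) • P + r • Q

theorem lp_between (P Q : ℝ × ℝ) {a b c : ℝ} (h1 : a < b) (h2 : b < c) :
    lp P Q b ∈ openSegment ℝ (lp P Q a) (lp P Q c) := by
  have h3 : 0 < c - a := by linarith
  refine ⟨(c - b) / (c - a), (b - a) / (c - a), div_pos (by linarith) h3,
    div_pos (by linarith) h3, ?_, ?_⟩
  · rw [← add_div, div_eq_one_iff_eq h3.ne']; ring
  · ext
    · simp only [lp, Prod.fst_add, Prod.smul_fst, smul_eq_mul]; field_simp; ring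
    · simp only [lp, Prod.snd_add, Prod.smul_snd, smul_eq_mul]; field_simp; ring

theorem lp_ne {P Q : ℝ × ℝ} (hPQ : P ≠ Q) {a b : ℝ} (h : lp P Q a = lp P Q b) : a = b := by
  by_contra hab
  apply hPQ
  have h1 := congrArg Prod.fst h
  have h2 := congrArg Prod.snd h
  simp only [lp, Prod.fst_add, Prod.smul_fst, smul_eq_mul, Prod.snd_add, Prod.smul_snd] at h1 h2
  have h3 : (a - b) * (Q.1 - P.1) = 0 := by linarith
  have h4 : (a - b) * (Q.2 - P.2) = 0 := by linarith
  have h5 : a - b ≠ 0 := sub_ne_zero.2 hab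
  have h6 := (mul_eq_zero.1 h3).resolve_left h5
  have h7 := (mul_eq_zero.1 h4).resolve_left h5
  exact Prod.ext (by linarith) (by linarith)

theorem crossing {A B W C D W' X : ℝ × ℝ} (hAB : A ≠ B) (hCD : C ≠ D)
    (hX1 : X ∈ openSegment ℝ A B) (hX2 : X ∈ openSegment ℝ C D)
    (h12 : ∀ t, t ∈ segment ℝ A B → t ∈ segment ℝ C D → t = X)
    (hAW : ∀ t, t ∈ segment ℝ A W → t ∉ segment ℝ C D)
    (hBW : ∀ t, t ∈ segment ℝ B W → t ∉ segment ℝ C D)
    (hCA : ∀ t, t ∈ segment ℝ C W' → t ∉ segment ℝ A B)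
    (hDA : ∀ t, t ∈ segment ℝ D W' → t ∉ segment ℝ A B)
    (c1 : ∀ t, t ∈ segment ℝ C W' → t ∉ segment ℝ A W)
    (c2 : ∀ t, t ∈ segment ℝ C W' → t ∉ segment ℝ B W)
    (d1 : ∀ t, t ∈ segment ℝ D W' → t ∉ segment ℝ A W)
    (d2 : ∀ t, t ∈ segment ℝ D W' → t ∉ segment ℝ B W) : False := by
  have hX3 : cr A B X = 0 := cr_of_mem_segment (openSegment_subset_segment _ _ _ hX1)
  have hXC : X ∈ segment ℝ C D := openSegment_subset_segment _ _ _ hX2
  -- `W` is not on the line `A B`
  have hW : cr A B W ≠ 0 := by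
    intro h0
    obtain ⟨r, hr⟩ := on_line hAB h0
    obtain ⟨s, t, hs, ht, hst, hX⟩ := hX1
    have hs' : s = 1 - t := by linarith
    subst hs'
    rcases le_or_gt t r with htr | htr
    · refine hAW X ?_ hXC
      have hr0 : 0 < r := by linarith
      refine ⟨1 - t / r, t / r, ?_, by positivity, by ring, ?_⟩
      · rw [sub_nonneg, div_le_one hr0]; exact htr
      · rw [← hX, hr]
        ext
        · simp only [Prod.fst_add, Prod.smul_fst, smul_eq_mul]; field_simp; ring
        · simp only [Prod.snd_add, Prod.smul_snd, smul_eq_mul]; field_simp; ring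
    · refine hBW X ?_ hXC
      have hr1 : 0 < 1 - r := by linarith
      refine ⟨1 - (1 - t) / (1 - r), (1 - t) / (1 - r), ?_, by positivity, by ring, ?_⟩
      · rw [sub_nonneg, div_le_one hr1]; linarith
      · rw [← hX, hr]
        ext
        · simp only [Prod.fst_add, Prod.smul_fst, smul_eq_mul]; field_simp; ring
        · simp only [Prod.snd_add, Prod.smul_snd, smul_eq_mul]; field_simp; ring
  -- `C` is not on the line `A B`
  have hC0 : cr A B C ≠ 0 := by
    intro h0
    obtain ⟨u, v, hu, hv, huv, hXu⟩ := hX2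
    have h1 := cr_lin A B C D u v huv
    rw [hXu, hX3, h0] at h1
    have hD0 : cr A B D = 0 := by
      have : v * cr A B D = 0 := by linarith
      exact (mul_eq_zero.1 this).resolve_left hv.ne'
    obtain ⟨c, hc⟩ := on_line hAB h0
    obtain ⟨d, hd⟩ := on_line hAB hD0
    obtain ⟨s, t, hs, ht, hst, hX⟩ := hX1
    have hs' : s = 1 - t := by linarith
    subst hs'
    have hXt : X = lp A B t := hX.symm
    have hcl : C = lp A B c := hc
    have hdl : D = lp A B d := hd
    have hparam : t = u * c + v * d := by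
      apply lp_ne hAB
      rw [← hXt, ← hXu, hc, hd]
      have hu' : u = 1 - v := by linarith
      subst hu'
      ext
      · simp only [lp, Prod.fst_add, Prod.smul_fst, smul_eq_mul]; ring
      · simp only [lp, Prod.snd_add, Prod.smul_snd, smul_eq_mul]; ring
    have hcd : c ≠ d := fun h => hCD (by rw [hcl, hdl, h])
    -- an end of the segment `C D` beyond `X`
    have hend : ∃ e : ℝ, t < e ∧ lp A B e ∈ segment ℝ C D := by
      rcases lt_or_gt_of_ne hcd with h | h
      · refine ⟨d, ?_, by rw [← hdl]; exact right_mem_segment _ _ _⟩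
        have hu' : u = 1 - v := by linarith
        subst hu'
        nlinarith
      · refine ⟨c, ?_, by rw [← hcl]; exact left_mem_segment _ _ _⟩
        have hv' : v = 1 - u := by linarith
        subst hv'
        nlinarith
    obtain ⟨e, hte, hmem⟩ := hend
    have ht1 : t < 1 := by linarith
    set m := (t + min e 1) / 2 with hm
    have hmin : t < min e 1 := lt_min hte ht1
    have hm1 : t < m := by rw [hm]; linarith
    have hm2 : m < e := by rw [hm]; have := min_le_left e 1; linarith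
    have hm3 : m < 1 := by rw [hm]; have := min_le_right e 1; linarith
    have hzAB : lp A B m ∈ segment ℝ A B :=
      ⟨1 - m, m, by linarith, by linarith, by ring, rfl⟩
    have hzCD : lp A B m ∈ segment ℝ C D := by
      have h2 := openSegment_subset_segment _ _ _ (lp_between A B hm1 hm2)
      rw [← hXt] at h2
      exact (convex_segment C D).segment_subset hXC hmem h2
    have h3 := h12 _ hzAB hzCD
    rw [hXt] at h3
    have := lp_ne hAB h3
    linarith
  have hsum : ∃ u v : ℝ, 0 < u ∧ 0 < v ∧ u * cr A B C + v * cr A B D = 0 := by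
    obtain ⟨u, v, hu, hv, huv, hXu⟩ := hX2
    have h1 := cr_lin A B C D u v huv
    rw [hXu, hX3] at h1
    exact ⟨u, v, hu, hv, h1.symm⟩
  obtain ⟨u, v, hu, hv, huv⟩ := hsum
  have swapCR : ∀ z, cr B A z = - cr A B z := by intro z; simp only [cr]; ring
  have sAB : segment ℝ B A = segment ℝ A B := segment_symm _ _ _
  have sCD : segment ℝ D C = segment ℝ C D := segment_symm _ _ _
  have oAB : openSegment ℝ B A = openSegment ℝ A B := openSegment_symm _ _ _
  have oCD : openSegment ℝ D C = openSegment ℝ C D := openSegment_symm _ _ _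
  rcases lt_or_gt_of_ne hC0 with hC | hC
  · have hD : 0 < cr A B D := by
      by_contra hc
      push Not at hc
      nlinarith [mul_pos hu (neg_pos.2 hC), mul_nonneg hv.le (neg_nonneg.2 hc)]
    rcases lt_or_gt_of_ne hW with hS | hS
    · -- swap `A`, `B`
      refine crossing_core (A := B) (B := A) (W := W) (C := C) (D := D) (W' := W') (X := X)
        (by rw [swapCR]; linarith) (by rw [swapCR]; linarith) (by rw [swapCR]; linarith)
        (by rw [oAB]; exact hX1) hX2 (by rw [sAB]; exact h12) hBW hAW (by rw [sAB]; exact hCA)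
        (by rw [sAB]; exact hDA) c2 c1 d2 d1
    · -- swap `C`, `D`
      refine crossing_core (A := A) (B := B) (W := W) (C := D) (D := C) (W' := W') (X := X)
        hS hD hC hX1 (by rw [oCD]; exact hX2) (by rw [sCD]; exact h12) (by rw [sCD]; exact hAW)
        (by rw [sCD]; exact hBW) hDA hCA d1 d2 c1 c2
  · have hD : cr A B D < 0 := by
      by_contra hc
      push Not at hc
      nlinarith [mul_pos hu hC, mul_nonneg hv.le hc]
    rcases lt_or_gt_of_ne hW with hS | hS
    · -- swap both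
      refine crossing_core (A := B) (B := A) (W := W) (C := D) (D := C) (W' := W') (X := X)
        (by rw [swapCR]; linarith) (by rw [swapCR]; linarith) (by rw [swapCR]; linarith)
        (by rw [oAB]; exact hX1) (by rw [oCD]; exact hX2) (by rw [sAB, sCD]; exact h12)
        (by rw [sCD]; exact hBW) (by rw [sCD]; exact hAW) (by rw [sAB]; exact hDA)
        (by rw [sAB]; exact hCA) d2 d1 c2 c1
    · exact crossing_core hS hC hD hX1 hX2 h12 hAW hBW hCA hDA c1 c2 d1 d2

/-- If all points of a finite family other than `P`, `Q` lie strictly between two others, no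
point lies on the positive side of the line `P Q`. -/
theorem hull {ι : Type} [Fintype ι] (p : ι → ℝ × ℝ) (P Q : ι) (hPQ : p P ≠ p Q)
    (hmid : ∀ v, v ≠ P → v ≠ Q → ∃ a b, p a ≠ p b ∧ p v ∈ openSegment ℝ (p a) (p b)) (R : ι) :
    cr (p P) (p Q) (p R) ≤ 0 := by
  by_contra hR
  push Not at hR
  set f : ι → ℝ := fun v => cr (p P) (p Q) (p v) with hf
  set g : ι → ℝ := fun v =>
    ((p Q).1 - (p P).1) * (p v).1 + ((p Q).2 - (p P).2) * (p v).2 with hg
  obtain ⟨z, -, hz⟩ := Finset.exists_max_image Finset.univ (fun v => toLex (f v, g v))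
    ⟨R, Finset.mem_univ R⟩
  have hle : ∀ v, f v < f z ∨ (f v = f z ∧ g v ≤ g z) := by
    intro v
    have := hz v (Finset.mem_univ v)
    rw [Prod.Lex.le_iff] at this
    simpa using this
  have hfz : 0 < f z := by
    rcases hle R with h | h
    · exact lt_trans hR h
    · rw [← h.1]; exact hR
  have hzP : z ≠ P := by
    rintro rfl
    simp only [hf] at hfz
    rw [cr_self_left] at hfz
    exact lt_irrefl _ hfz
  have hzQ : z ≠ Q := by
    rintro rfl
    simp only [hf] at hfz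
    rw [cr_self_right] at hfz
    exact lt_irrefl _ hfz
  obtain ⟨a, b, hab, s, t, hs, ht, hst, hsum⟩ := hmid z hzP hzQ
  have f1 : f z = s * f a + t * f b := by
    simp only [hf]; rw [← hsum, cr_lin _ _ _ _ _ _ hst]
  have g1 : g z = s * g a + t * g b := by
    simp only [hg]; rw [← hsum]
    simp only [Prod.smul_fst, Prod.smul_snd, Prod.fst_add, Prod.snd_add, smul_eq_mul]
    ring
  have hs' : s = 1 - t := by linarith
  have fa : f a = f z := by
    rcases hle a with h | h
    · exfalso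
      rcases hle b with h' | h'
      · nlinarith [mul_pos hs (sub_pos.2 h), mul_pos ht (sub_pos.2 h')]
      · have hb := h'.1; subst hs'; nlinarith [mul_pos hs (sub_pos.2 h)]
    · exact h.1
  have fb : f b = f z := by
    rcases hle b with h | h
    · exfalso
      rw [fa] at f1
      subst hs'
      nlinarith [mul_pos ht (sub_pos.2 h)]
    · exact h.1
  have ga : g a ≤ g z := by
    rcases hle a with h | h
    · linarith
    · exact h.2
  have gb : g b ≤ g z := by
    rcases hle b with h | h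
    · linarith
    · exact h.2
  have ga' : g a = g z := by
    by_contra hc
    have hc' := lt_of_le_of_ne ga hc
    subst hs'
    nlinarith [mul_pos hs (sub_pos.2 hc'), mul_nonneg ht.le (sub_nonneg.2 gb)]
  have gb' : g b = g z := by
    by_contra hc
    have hc' := lt_of_le_of_ne gb hc
    subst hs'
    nlinarith [mul_pos ht (sub_pos.2 hc'), mul_nonneg hs.le (sub_nonneg.2 ga)]
  have e1 : f a - f b = 0 := by linarith
  have e2 : g a - g b = 0 := by linarith
  simp only [hf, hg, cr] at e1 e2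
  have hne : 0 < ((p Q).1 - (p P).1) ^ 2 + ((p Q).2 - (p P).2) ^ 2 := by
    by_contra hc
    push Not at hc
    have h1 : (p Q).1 - (p P).1 = 0 := by
      nlinarith [sq_nonneg ((p Q).1 - (p P).1), sq_nonneg ((p Q).2 - (p P).2)]
    have h2 : (p Q).2 - (p P).2 = 0 := by
      nlinarith [sq_nonneg ((p Q).1 - (p P).1), sq_nonneg ((p Q).2 - (p P).2)]
    exact hPQ (Prod.ext (by linarith) (by linarith))
  have w1 : (((p Q).1 - (p P).1) ^ 2 + ((p Q).2 - (p P).2) ^ 2) * ((p a).1 - (p b).1) = 0 := by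
    linear_combination ((p Q).1 - (p P).1) * e2 - ((p Q).2 - (p P).2) * e1
  have w2 : (((p Q).1 - (p P).1) ^ 2 + ((p Q).2 - (p P).2) ^ 2) * ((p a).2 - (p b).2) = 0 := by
    linear_combination ((p Q).2 - (p P).2) * e2 + ((p Q).1 - (p P).1) * e1
  have w1' := (mul_eq_zero.1 w1).resolve_left hne.ne'
  have w2' := (mul_eq_zero.1 w2).resolve_left hne.ne'
  exact hab (Prod.ext (by linarith) (by linarith))

/-! ### The hypergraph -/

/-- The four triples and twelve pairs. -/
def edgeList : Fin 16 → List (Fin 10) :=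
  ![[0, 1, 2], [0, 3, 4], [1, 3, 5], [2, 4, 5],
    [3, 6], [4, 6], [5, 6], [1, 7], [2, 7], [5, 7],
    [0, 8], [2, 8], [4, 8], [0, 9], [1, 9], [3, 9]]

def H0 : Hypergraph (Fin 10) (Fin 16) where
  edge i := (edgeList i).toFinset
  nonempty := by decide

theorem H0_linear : H0.Linear := by
  unfold Hypergraph.Linear
  decide +kernel

/-! ### The hypergraph is planar -/

/-- positions of the nodes of the incidence graph -/
def PZ : Fin 10 ⊕ Fin 16 → ℤ × ℤ :=
  Sum.elim
    ![(2, 46), (-48, -31), (-14, 7), (47, -30), (16, 8), (2, -18), (19, -13), (-21, -12),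
      (-1, 26), (-2, 66)]
    ![(-20, 6), (20, 9), (-2, -23), (-1, -2), (36, -24), (19, -3), (8, -13), (-33, -21),
      (-17, 0), (-8, -12), (0, 35), (-9, 16), (6, 15), (0, 55), (-80, -40), (78, -39)]

/-- integer orientation determinant -/
def crZ (p q r : ℤ × ℤ) : ℤ := (q.1 - p.1) * (r.2 - p.2) - (q.2 - p.2) * (r.1 - p.1)

def toR (x : ℤ × ℤ) : ℝ × ℝ := ((x.1 : ℝ), (x.2 : ℝ))

theorem cr_toR (p q r : ℤ × ℤ) : cr (toR p) (toR q) (toR r) = (crZ p q r : ℝ) := by
  simp only [cr, crZ, toR]; push_cast; ring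

def incList : List (Fin 10 × Fin 16) :=
  [(0, 0), (1, 0), (2, 0), (0, 1), (3, 1), (4, 1), (1, 2), (3, 2), (5, 2), (2, 3), (4, 3), (5, 3),
   (3, 4), (6, 4), (4, 5), (6, 5), (5, 6), (6, 6), (1, 7), (7, 7), (2, 8), (7, 8), (5, 9), (7, 9),
   (0, 10), (8, 10), (2, 11), (8, 11), (4, 12), (8, 12), (0, 13), (9, 13), (1, 14), (9, 14),
   (3, 15), (9, 15)]

theorem mem_incList : ∀ v i, v ∈ H0.edge i → (v, i) ∈ incList := by decide +kernel

theorem check1 : ∀ e ∈ incList, ∀ z : Fin 10 ⊕ Fin 16, z = Sum.inl e.1 ∨ z = Sum.inr e.2 ∨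
    crZ (PZ (Sum.inl e.1)) (PZ (Sum.inr e.2)) (PZ z) ≠ 0 := by decide +kernel

theorem check2 : ∀ e ∈ incList, ∀ f ∈ incList, e.1 = f.1 ∨ e.2 = f.2 ∨
    (0 < crZ (PZ (Sum.inl e.1)) (PZ (Sum.inr e.2)) (PZ (Sum.inl f.1)) ∧
      0 < crZ (PZ (Sum.inl e.1)) (PZ (Sum.inr e.2)) (PZ (Sum.inr f.2))) ∨
    (crZ (PZ (Sum.inl e.1)) (PZ (Sum.inr e.2)) (PZ (Sum.inl f.1)) < 0 ∧
      crZ (PZ (Sum.inl e.1)) (PZ (Sum.inr e.2)) (PZ (Sum.inr f.2)) < 0) ∨
    (0 < crZ (PZ (Sum.inl f.1)) (PZ (Sum.inr f.2)) (PZ (Sum.inl e.1)) ∧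
      0 < crZ (PZ (Sum.inl f.1)) (PZ (Sum.inr f.2)) (PZ (Sum.inr e.2))) ∨
    (crZ (PZ (Sum.inl f.1)) (PZ (Sum.inr f.2)) (PZ (Sum.inl e.1)) < 0 ∧
      crZ (PZ (Sum.inl f.1)) (PZ (Sum.inr f.2)) (PZ (Sum.inr e.2)) < 0) := by decide +kernel

theorem PZ_inj : Function.Injective PZ := by
  have h : ∀ x y : Fin 10 ⊕ Fin 16, PZ x = PZ y → x = y := by decide +kernel
  exact fun x y hxy => h x y hxy

noncomputable def pos (x : Fin 10 ⊕ Fin 16) : ℝ × ℝ := toR (PZ x)

theorem toR_inj : Function.Injective toR := by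
  intro x y h
  have h1 : ((x.1 : ℤ) : ℝ) = ((y.1 : ℤ) : ℝ) := congrArg Prod.fst h
  have h2 : ((x.2 : ℤ) : ℝ) = ((y.2 : ℤ) : ℝ) := congrArg Prod.snd h
  exact Prod.ext (by exact_mod_cast h1) (by exact_mod_cast h2)

theorem pos_inj : Function.Injective pos := toR_inj.comp PZ_inj

noncomputable def arc (e : Sym2 (Fin 10 ⊕ Fin 16)) : Set (ℝ × ℝ) :=
  Sym2.lift ⟨fun x y => segment ℝ (pos x) (pos y), fun x y => segment_symm ℝ _ _⟩ e

theorem arc_mk (x y : Fin 10 ⊕ Fin 16) : arc s(x, y) = segment ℝ (pos x) (pos y) := rfl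

theorem notin_arc {v : Fin 10} {i : Fin 16} (h : v ∈ H0.edge i) {z : Fin 10 ⊕ Fin 16}
    (hz : pos z ∈ segment ℝ (pos (Sum.inl v)) (pos (Sum.inr i))) :
    z = Sum.inl v ∨ z = Sum.inr i := by
  rcases check1 (v, i) (mem_incList v i h) z with h1 | h1 | h1
  · exact Or.inl h1
  · exact Or.inr h1
  · exfalso
    have h2 := cr_of_mem_segment hz
    rw [pos, pos, pos, cr_toR] at h2
    exact h1 (by exact_mod_cast h2)

theorem arcs_meet {v w : Fin 10} {i j : Fin 16} (hv : v ∈ H0.edge i) (hw : w ∈ H0.edge j)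
    (hne : ¬ (v = w ∧ i = j)) {t : ℝ × ℝ}
    (h1 : t ∈ segment ℝ (pos (Sum.inl v)) (pos (Sum.inr i)))
    (h2 : t ∈ segment ℝ (pos (Sum.inl w)) (pos (Sum.inr j))) : ∃ z, t = pos z := by
  have m1 := mem_incList v i hv
  have m2 := mem_incList w j hw
  by_cases hvw : v = w
  · subst hvw
    have hij : i ≠ j := fun h => hne ⟨rfl, h⟩
    rcases check1 (v, i) m1 (Sum.inr j) with h | h | h
    · cases h
    · exact absurd (Sum.inr.inj h).symm hij
    · refine ⟨Sum.inl v, seg_adj ?_ h1 h2⟩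
      rw [pos, pos, pos, cr_toR]
      exact_mod_cast h
  · by_cases hij : i = j
    · subst hij
      rcases check1 (v, i) m1 (Sum.inl w) with h | h | h
      · exact absurd (Sum.inl.inj h).symm hvw
      · cases h
      · refine ⟨Sum.inr i, seg_adj (y := pos (Sum.inl v)) (w := pos (Sum.inl w)) ?_
          (by rwa [segment_symm]) (by rwa [segment_symm])⟩
        have e1 : cr (pos (Sum.inr i)) (pos (Sum.inl v)) (pos (Sum.inl w)) =
            - cr (pos (Sum.inl v)) (pos (Sum.inr i)) (pos (Sum.inl w)) := by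
          simp only [cr]; ring
        rw [e1, neg_ne_zero, pos, pos, pos, cr_toR]
        exact_mod_cast h
    · exfalso
      rcases check2 (v, i) m1 (w, j) m2 with h | h | h | h | h | h
      · exact hvw h
      · exact hij h
      · refine seg_disj_pos (p := pos (Sum.inl v)) (q := pos (Sum.inr i)) ?_ ?_ h1 h2
        · rw [pos, pos, pos, cr_toR]; exact_mod_cast h.1
        · rw [pos, pos, pos, cr_toR]; exact_mod_cast h.2
      · refine seg_disj_neg (p := pos (Sum.inl v)) (q := pos (Sum.inr i)) ?_ ?_ h1 h2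
        · rw [pos, pos, pos, cr_toR]; exact_mod_cast h.1
        · rw [pos, pos, pos, cr_toR]; exact_mod_cast h.2
      · refine seg_disj_pos (p := pos (Sum.inl w)) (q := pos (Sum.inr j)) ?_ ?_ h2 h1
        · rw [pos, pos, pos, cr_toR]; exact_mod_cast h.1
        · rw [pos, pos, pos, cr_toR]; exact_mod_cast h.2
      · refine seg_disj_neg (p := pos (Sum.inl w)) (q := pos (Sum.inr j)) ?_ ?_ h2 h1
        · rw [pos, pos, pos, cr_toR]; exact_mod_cast h.1
        · rw [pos, pos, pos, cr_toR]; exact_mod_cast h.2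

theorem H0_planar : IsPlanar H0.incidence := by
  refine ⟨pos, arc, pos_inj, ?_, ?_, ?_⟩
  · rintro x y ⟨v, i, h, ⟨rfl, rfl⟩ | ⟨rfl, rfl⟩⟩
    · exact segment_isArc (fun hc => by cases pos_inj hc)
    · exact segment_isArc (fun hc => by cases pos_inj hc)
  · rintro x y z ⟨v, i, h, ⟨rfl, rfl⟩ | ⟨rfl, rfl⟩⟩ hz
    · exact notin_arc h hz
    · rw [arc_mk, segment_symm] at hz
      exact (notin_arc h hz).symm
  · have key : ∀ e ∈ H0.incidence.edgeSet, ∃ v i, v ∈ H0.edge i ∧
        e = s(Sum.inl v, Sum.inr i) := by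
      intro e
      induction e using Sym2.ind with
      | _ x y =>
        intro he
        rw [SimpleGraph.mem_edgeSet] at he
        obtain ⟨v, i, h, ⟨rfl, rfl⟩ | ⟨rfl, rfl⟩⟩ := he
        · exact ⟨v, i, h, rfl⟩
        · exact ⟨v, i, h, Sym2.eq_swap⟩
    intro e he f hf hef t h1 h2
    obtain ⟨v, i, hv, rfl⟩ := key e he
    obtain ⟨w, j, hw, rfl⟩ := key f hf
    exact arcs_meet hv hw (fun hc => hef (by rw [hc.1, hc.2])) h1 h2

/-! ### No straight-line representation -/

section NoRep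

variable {p : Fin 10 → ℝ × ℝ} {s : Fin 16 → Set (ℝ × ℝ)}

theorem rep_convex (h : StraightLineRep H0 p s) (i : Fin 16) : Convex ℝ (s i) := by
  obtain ⟨a, b, -, hs⟩ := h.2.1 i
  rw [hs]; exact convex_segment a b

theorem rep_sub (h : StraightLineRep H0 p s) {i : Fin 16} {a b : Fin 10}
    (ha : a ∈ H0.edge i) (hb : b ∈ H0.edge i) {t : ℝ × ℝ} (ht : t ∈ segment ℝ (p a) (p b)) :
    t ∈ s i :=
  (rep_convex h i).segment_subset ((h.2.2.2 a i).2 ha) ((h.2.2.2 b i).2 hb) ht

theorem rep_meet (h : StraightLineRep H0 p s) {i j : Fin 16} (hij : i ≠ j) {t : ℝ × ℝ}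
    (h1 : t ∈ s i) (h2 : t ∈ s j) : ∃ v, t = p v ∧ v ∈ H0.edge i ∧ v ∈ H0.edge j := by
  obtain ⟨v, hv⟩ := (h.2.2.1 i j hij).2 t ⟨h1, h2⟩
  refine ⟨v, hv, ?_, ?_⟩
  · rw [hv] at h1; exact (h.2.2.2 v i).1 h1
  · rw [hv] at h2; exact (h.2.2.2 v j).1 h2

theorem rep_disj (h : StraightLineRep H0 p s) {i j : Fin 16}
    (hd : ∀ v, v ∈ H0.edge i → v ∉ H0.edge j) {t : ℝ × ℝ} (h1 : t ∈ s i) : t ∉ s j := by
  intro h2
  have hij : i ≠ j := by
    rintro rfl
    obtain ⟨v, hv⟩ := H0.nonempty i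
    exact hd v hv hv
  obtain ⟨v, -, hv1, hv2⟩ := rep_meet h hij h1 h2
  exact hd v hv1 hv2

/-- `p x` lies strictly between `p y` and `p z` -/
def M (p : Fin 10 → ℝ × ℝ) (x y z : Fin 10) : Prop := p x ∈ openSegment ℝ (p y) (p z)

/-- three points on a segment: one is strictly between the other two -/
theorem rep_mid (h : StraightLineRep H0 p s) {i : Fin 16} {a b c : Fin 10}
    (ha : a ∈ H0.edge i) (hb : b ∈ H0.edge i) (hc : c ∈ H0.edge i)
    (hab : a ≠ b) (hac : a ≠ c) (hbc : b ≠ c) : M p a b c ∨ M p b a c ∨ M p c a b := by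
  obtain ⟨u, v, huv, hs⟩ := h.2.1 i
  have par : ∀ x, x ∈ H0.edge i → ∃ r : ℝ, p x = lp u v r := by
    intro x hx
    have h1 := (h.2.2.2 x i).2 hx
    rw [hs] at h1
    obtain ⟨α, β, -, -, hab, h2⟩ := h1
    refine ⟨β, ?_⟩
    have hα : α = 1 - β := by linarith
    rw [← h2, hα]; rfl
  obtain ⟨ra, hra⟩ := par a ha
  obtain ⟨rb, hrb⟩ := par b hb
  obtain ⟨rc, hrc⟩ := par c hc
  have nab : ra ≠ rb := fun hh => hab (h.1 (by rw [hra, hrb, hh]))
  have nac : ra ≠ rc := fun hh => hac (h.1 (by rw [hra, hrc, hh]))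
  have nbc : rb ≠ rc := fun hh => hbc (h.1 (by rw [hrb, hrc, hh]))
  have bet : ∀ {x y z : ℝ}, x < y → y < z →
      lp u v y ∈ openSegment ℝ (lp u v x) (lp u v z) ∧
      lp u v y ∈ openSegment ℝ (lp u v z) (lp u v x) := by
    intro x y z h1 h2
    have := lp_between u v h1 h2
    exact ⟨this, by rwa [openSegment_symm]⟩
  unfold M
  rw [hra, hrb, hrc]
  rcases lt_or_gt_of_ne nab with h1 | h1 <;> rcases lt_or_gt_of_ne nbc with h2 | h2 <;>
    rcases lt_or_gt_of_ne nac with h3 | h3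
  · exact Or.inr (Or.inl (bet h1 h2).1)
  · linarith
  · exact Or.inr (Or.inr (bet h3 h2).1)
  · exact Or.inl (bet h3 h1).2
  · exact Or.inl (bet h1 h3).1
  · exact Or.inr (Or.inr (bet h2 h3).2)
  · linarith
  · exact Or.inr (Or.inl (bet h2 h1).2)

theorem rep_cross (h : StraightLineRep H0 p s) {x a b w c d w' : Fin 10}
    {i j k1 k2 k3 k4 : Fin 16} (hab : a ≠ b) (hcd : c ≠ d) (hij : i ≠ j)
    (m1 : a ∈ H0.edge i ∧ b ∈ H0.edge i) (m2 : c ∈ H0.edge j ∧ d ∈ H0.edge j)
    (m3 : a ∈ H0.edge k1 ∧ w ∈ H0.edge k1) (m4 : b ∈ H0.edge k2 ∧ w ∈ H0.edge k2)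
    (m5 : c ∈ H0.edge k3 ∧ w' ∈ H0.edge k3) (m6 : d ∈ H0.edge k4 ∧ w' ∈ H0.edge k4)
    (hx : ∀ v, v ∈ H0.edge i → v ∈ H0.edge j → v = x)
    (q1 : ∀ v, v ∈ H0.edge k1 → v ∉ H0.edge j) (q2 : ∀ v, v ∈ H0.edge k2 → v ∉ H0.edge j)
    (q3 : ∀ v, v ∈ H0.edge k3 → v ∉ H0.edge i) (q4 : ∀ v, v ∈ H0.edge k4 → v ∉ H0.edge i)
    (q5 : ∀ v, v ∈ H0.edge k3 → v ∉ H0.edge k1) (q6 : ∀ v, v ∈ H0.edge k3 → v ∉ H0.edge k2)
    (q7 : ∀ v, v ∈ H0.edge k4 → v ∉ H0.edge k1) (q8 : ∀ v, v ∈ H0.edge k4 → v ∉ H0.edge k2)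
    (hM1 : M p x a b) (hM2 : M p x c d) : False := by
  refine crossing (A := p a) (B := p b) (W := p w) (C := p c) (D := p d) (W' := p w')
    (X := p x) (fun hh => hab (h.1 hh)) (fun hh => hcd (h.1 hh)) hM1 hM2 ?_ ?_ ?_ ?_ ?_ ?_ ?_ ?_ ?_
  · intro t h1 h2
    obtain ⟨v, hv, hv1, hv2⟩ := rep_meet h hij (rep_sub h m1.1 m1.2 h1) (rep_sub h m2.1 m2.2 h2)
    rw [hv, hx v hv1 hv2]
  · exact fun t h1 h2 => rep_disj h q1 (rep_sub h m3.1 m3.2 h1) (rep_sub h m2.1 m2.2 h2)
  · exact fun t h1 h2 => rep_disj h q2 (rep_sub h m4.1 m4.2 h1) (rep_sub h m2.1 m2.2 h2)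
  · exact fun t h1 h2 => rep_disj h q3 (rep_sub h m5.1 m5.2 h1) (rep_sub h m1.1 m1.2 h2)
  · exact fun t h1 h2 => rep_disj h q4 (rep_sub h m6.1 m6.2 h1) (rep_sub h m1.1 m1.2 h2)
  · exact fun t h1 h2 => rep_disj h q5 (rep_sub h m5.1 m5.2 h1) (rep_sub h m3.1 m3.2 h2)
  · exact fun t h1 h2 => rep_disj h q6 (rep_sub h m5.1 m5.2 h1) (rep_sub h m4.1 m4.2 h2)
  · exact fun t h1 h2 => rep_disj h q7 (rep_sub h m6.1 m6.2 h1) (rep_sub h m3.1 m3.2 h2)
  · exact fun t h1 h2 => rep_disj h q8 (rep_sub h m6.1 m6.2 h1) (rep_sub h m4.1 m4.2 h2)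

theorem c01 (h : StraightLineRep H0 p s) : M p 0 1 2 → M p 0 3 4 → False :=
  rep_cross h (w := 7) (w' := 6) (i := 0) (j := 1) (k1 := 7) (k2 := 8) (k3 := 4) (k4 := 5)
    (by decide) (by decide) (by decide) (by decide) (by decide) (by decide) (by decide)
    (by decide) (by decide) (by decide) (by decide) (by decide) (by decide) (by decide)
    (by decide) (by decide) (by decide) (by decide)

theorem c02 (h : StraightLineRep H0 p s) : M p 1 0 2 → M p 1 3 5 → False :=
  rep_cross h (w := 8) (w' := 6) (i := 0) (j := 2) (k1 := 10) (k2 := 11) (k3 := 4) (k4 := 6)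
    (by decide) (by decide) (by decide) (by decide) (by decide) (by decide) (by decide)
    (by decide) (by decide) (by decide) (by decide) (by decide) (by decide) (by decide)
    (by decide) (by decide) (by decide) (by decide)

theorem c03 (h : StraightLineRep H0 p s) : M p 2 0 1 → M p 2 4 5 → False :=
  rep_cross h (w := 9) (w' := 6) (i := 0) (j := 3) (k1 := 13) (k2 := 14) (k3 := 5) (k4 := 6)
    (by decide) (by decide) (by decide) (by decide) (by decide) (by decide) (by decide)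
    (by decide) (by decide) (by decide) (by decide) (by decide) (by decide) (by decide)
    (by decide) (by decide) (by decide) (by decide)

theorem c12 (h : StraightLineRep H0 p s) : M p 3 0 4 → M p 3 1 5 → False :=
  rep_cross h (w := 8) (w' := 7) (i := 1) (j := 2) (k1 := 10) (k2 := 12) (k3 := 7) (k4 := 9)
    (by decide) (by decide) (by decide) (by decide) (by decide) (by decide) (by decide)
    (by decide) (by decide) (by decide) (by decide) (by decide) (by decide) (by decide)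
    (by decide) (by decide) (by decide) (by decide)

theorem c13 (h : StraightLineRep H0 p s) : M p 4 0 3 → M p 4 2 5 → False :=
  rep_cross h (w := 9) (w' := 7) (i := 1) (j := 3) (k1 := 13) (k2 := 15) (k3 := 8) (k4 := 9)
    (by decide) (by decide) (by decide) (by decide) (by decide) (by decide) (by decide)
    (by decide) (by decide) (by decide) (by decide) (by decide) (by decide) (by decide)
    (by decide) (by decide) (by decide) (by decide)

theorem c23 (h : StraightLineRep H0 p s) : M p 5 1 3 → M p 5 2 4 → False :=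
  rep_cross h (w := 9) (w' := 8) (i := 2) (j := 3) (k1 := 14) (k2 := 15) (k3 := 11) (k4 := 12)
    (by decide) (by decide) (by decide) (by decide) (by decide) (by decide) (by decide)
    (by decide) (by decide) (by decide) (by decide) (by decide) (by decide) (by decide)
    (by decide) (by decide) (by decide) (by decide)

/-- `p 0`, `p 1`, `p 3` are not on one line. -/
theorem not_line (h : StraightLineRep H0 p s) {P Q : ℝ × ℝ} (hPQ : P ≠ Q)
    (h0 : cr P Q (p 0) = 0) (h1 : cr P Q (p 1) = 0) (h3 : cr P Q (p 3) = 0) : False := by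
  obtain ⟨r0, e0⟩ := on_line hPQ h0
  obtain ⟨r1, e1⟩ := on_line hPQ h1
  obtain ⟨r3, e3⟩ := on_line hPQ h3
  have e0' : p 0 = lp P Q r0 := e0
  have e1' : p 1 = lp P Q r1 := e1
  have e3' : p 3 = lp P Q r3 := e3
  have n01 : r0 ≠ r1 := fun hh => by
    have : (0 : Fin 10) = 1 := h.1 (by rw [e0', e1', hh])
    exact absurd this (by decide)
  have n03 : r0 ≠ r3 := fun hh => by
    have : (0 : Fin 10) = 3 := h.1 (by rw [e0', e3', hh])
    exact absurd this (by decide)
  have n13 : r1 ≠ r3 := fun hh => by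
    have : (1 : Fin 10) = 3 := h.1 (by rw [e1', e3', hh])
    exact absurd this (by decide)
  have bet : ∀ {x y z : ℝ} {a b c : Fin 10} {i : Fin 16}, p a = lp P Q x → p b = lp P Q y →
      p c = lp P Q z → x < y → y < z → a ∈ H0.edge i → c ∈ H0.edge i → b ∉ H0.edge i → False := by
    intro x y z a b c i ha hb hc hxy hyz hai hci hbi
    have := openSegment_subset_segment _ _ _ (lp_between P Q hxy hyz)
    rw [← ha, ← hb, ← hc] at this
    exact hbi ((h.2.2.2 b i).1 (rep_sub h hai hci this))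
  rcases lt_or_gt_of_ne n01 with a | a <;> rcases lt_or_gt_of_ne n13 with b | b <;>
    rcases lt_or_gt_of_ne n03 with c | c
  · exact bet (i := 1) e0' e1' e3' a b (by decide) (by decide) (by decide)
  · linarith
  · exact bet (i := 0) e0' e3' e1' c b (by decide) (by decide) (by decide)
  · exact bet (i := 2) e3' e0' e1' c a (by decide) (by decide) (by decide)
  · exact bet (i := 2) e1' e0' e3' a c (by decide) (by decide) (by decide)
  · exact bet (i := 0) e1' e3' e0' b c (by decide) (by decide) (by decide)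
  · linarith
  · exact bet (i := 1) e3' e1' e0' b a (by decide) (by decide) (by decide)

/-- four distinct middle points among the six points of the triples are impossible -/
theorem four_mid (h : StraightLineRep H0 p s) {x0 y0 z0 x1 y1 z1 x2 y2 z2 x3 y3 z3 : Fin 10}
    (h0 : M p x0 y0 z0) (h1 : M p x1 y1 z1) (h2 : M p x2 y2 z2) (h3 : M p x3 y3 z3)
    (hn : (y0 ≠ z0 ∧ y1 ≠ z1 ∧ y2 ≠ z2 ∧ y3 ≠ z3) ∧ (y0 < 6 ∧ z0 < 6) ∧ (y1 < 6 ∧ z1 < 6) ∧
      (y2 < 6 ∧ z2 < 6) ∧ (y3 < 6 ∧ z3 < 6))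
    (hd : ∃ P Q : Fin 10, P < 6 ∧ Q < 6 ∧ P ≠ Q ∧
      ∀ v : Fin 10, v < 6 → v = P ∨ v = Q ∨ v = x0 ∨ v = x1 ∨ v = x2 ∨ v = x3) : False := by
  obtain ⟨P, Q, hP, hQ, hPQ, hv⟩ := hd
  -- the six points
  let ι := {v : Fin 10 // v < 6}
  have hmid : ∀ (A B : ι), ((A.1 = P ∧ B.1 = Q) ∨ (A.1 = Q ∧ B.1 = P)) →
      ∀ v : ι, v ≠ A → v ≠ B → ∃ a b : ι, p a.1 ≠ p b.1 ∧
        p v.1 ∈ openSegment ℝ (p a.1) (p b.1) := by
    intro A B hAB v hvA hvB
    have hvA' : v.1 ≠ A.1 := fun hh => hvA (Subtype.ext hh)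
    have hvB' : v.1 ≠ B.1 := fun hh => hvB (Subtype.ext hh)
    have hvP : v.1 ≠ P := by
      rcases hAB with hh | hh
      · rw [← hh.1]; exact hvA'
      · rw [← hh.2]; exact hvB'
    have hvQ : v.1 ≠ Q := by
      rcases hAB with hh | hh
      · rw [← hh.2]; exact hvB'
      · rw [← hh.1]; exact hvA'
    rcases hv v.1 v.2 with e | e | e | e | e | e
    · exact absurd e hvP
    · exact absurd e hvQ
    · exact ⟨⟨y0, hn.2.1.1⟩, ⟨z0, hn.2.1.2⟩, fun hh => hn.1.1 (h.1 hh), by rw [e]; exact h0⟩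
    · exact ⟨⟨y1, hn.2.2.1.1⟩, ⟨z1, hn.2.2.1.2⟩, fun hh => hn.1.2.1 (h.1 hh),
        by rw [e]; exact h1⟩
    · exact ⟨⟨y2, hn.2.2.2.1.1⟩, ⟨z2, hn.2.2.2.1.2⟩, fun hh => hn.1.2.2.1 (h.1 hh),
        by rw [e]; exact h2⟩
    · exact ⟨⟨y3, hn.2.2.2.2.1⟩, ⟨z3, hn.2.2.2.2.2⟩, fun hh => hn.1.2.2.2 (h.1 hh),
        by rw [e]; exact h3⟩
  have hne : p P ≠ p Q := fun hh => hPQ (h.1 hh)
  have zero : ∀ R : ι, cr (p P) (p Q) (p R.1) = 0 := by
    intro R
    have l1 := hull (fun v : ι => p v.1) ⟨P, hP⟩ ⟨Q, hQ⟩ hne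
      (hmid ⟨P, hP⟩ ⟨Q, hQ⟩ (Or.inl ⟨rfl, rfl⟩)) R
    have l2 := hull (fun v : ι => p v.1) ⟨Q, hQ⟩ ⟨P, hP⟩ hne.symm
      (hmid ⟨Q, hQ⟩ ⟨P, hP⟩ (Or.inr ⟨rfl, rfl⟩)) R
    have l3 : cr (p Q) (p P) (p R.1) = - cr (p P) (p Q) (p R.1) := by simp only [cr]; ring
    simp only at l1 l2
    rw [l3] at l2
    linarith
  exact not_line h hne (zero ⟨0, by decide⟩) (zero ⟨1, by decide⟩) (zero ⟨3, by decide⟩)

theorem no_rep (h : StraightLineRep H0 p s) : False := by
  have t0 := rep_mid h (i := 0) (a := 0) (b := 1) (c := 2) (by decide) (by decide) (by decide)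
    (by decide) (by decide) (by decide)
  have t1 := rep_mid h (i := 1) (a := 0) (b := 3) (c := 4) (by decide) (by decide) (by decide)
    (by decide) (by decide) (by decide)
  have t2 := rep_mid h (i := 2) (a := 1) (b := 3) (c := 5) (by decide) (by decide) (by decide)
    (by decide) (by decide) (by decide)
  have t3 := rep_mid h (i := 3) (a := 2) (b := 4) (c := 5) (by decide) (by decide) (by decide)
    (by decide) (by decide) (by decide)
  rcases t0 with h0 | h0 | h0 <;> rcases t1 with h1 | h1 | h1 <;> rcases t2 with h2 | h2 | h2 <;>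
    rcases t3 with h3 | h3 | h3 <;>
  first
  | exact c01 h h0 h1
  | exact c02 h h0 h2
  | exact c03 h h0 h3
  | exact c12 h h1 h2
  | exact c13 h h1 h3
  | exact c23 h h2 h3
  | exact four_mid h h0 h1 h2 h3 (by decide) (by decide)

end NoRep

/-- **Q1 is answered in the negative.** There is a planar linear hypergraph (10 vertices, 16
edges, four of size three and twelve of size two) that has no straight-line representation. -/
theorem result : ∃ H : Hypergraph (Fin 10) (Fin 16), H.Linear ∧ IsPlanar H.incidence ∧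
    ¬ ∃ (p : Fin 10 → ℝ × ℝ) (s : Fin 16 → Set (ℝ × ℝ)), StraightLineRep H p s :=
  ⟨H0, H0_linear, H0_planar, fun ⟨_, _, h⟩ => no_rep h⟩

end Pool.Agent.Results.MP_3387b7_co.NoStraightLine
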